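import Pool.Agent.R463.PP9

set_option autoImplicit false

/-!
# The joint law of the gaps and the residues, uniformly in systems of polynomials
-/

namespace Pool.Agent.U404.JL

open Polynomial Finset Filter
open Pool.Agent.W123.RP Pool.Agent.H373R2.T7 Pool.Agent.W123.RU Pool.Agent.W123.RU.Poly
open Pool.Agent.TH464.PW Pool.Agent.TH464.PO Pool.Agent.Y879.GL Pool.Agent.R463.PP

/-- the next element of `G` -/
noncomputable def nxt (G : ℕ → Prop) (m : ℕ) : ℕ := sInf {n | m < n ∧ G n}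

/-- the patterns of `l + 1` consecutive elements of `G` -/
noncomputable def cG (G : ℕ → Prop) (q l : ℕ) (b s T : ℕ → ℕ) (Z Y : ℕ) : ℕ :=
  Set.ncard {m : ℕ | Z < m ∧ m ≤ Z + Y ∧ G m ∧ (∀ j ≤ l, (nxt G)^[j] m % q = b j) ∧
    ∀ j < l, s j < (nxt G)^[j + 1] m - (nxt G)^[j] m ∧ (nxt G)^[j + 1] m - (nxt G)^[j] m ≤ T j}

open Classical in
/-- the possible residues -/
noncomputable def rf {k : ℕ} (f : Fin k → ℤ[X]) (q : ℕ) : Finset ℕ :=
  (range q).filter (fun b : ℕ => ∀ p : ℕ, p.Prime → p ∣ q → ¬ Q f p b)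

variable {k : ℕ}

lemma rf_sub (f : Fin k → ℤ[X]) (q : ℕ) : rf f q ⊆ range q := by
  classical
  unfold rf
  exact filter_subset _ _

lemma mem_rf_mod (f : Fin k → ℤ[X]) (q m : ℕ) (hq : 1 ≤ q) :
    m % q ∈ rf f q ↔ ∀ p : ℕ, p.Prime → p ∣ q → ¬ Q f p m := by
  classical
  unfold rf
  rw [mem_filter, mem_range]
  have key : ∀ p : ℕ, p ∣ q → (Q f p (m % q) ↔ Q f p m) := by
    intro p hp
    rw [per f p m, per f p (m % q), Nat.mod_mod_of_dvd m hp]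
  constructor
  · rintro ⟨_, h⟩ p hp hpq hQ
    exact h p hp hpq ((key p hpq).2 hQ)
  · intro h
    exact ⟨Nat.mod_lt _ hq, fun p hp hpq hQ => h p hp hpq ((key p hpq).1 hQ)⟩

lemma gb_iff (f : Fin k → ℤ[X]) (w q m : ℕ) (hq : 1 ≤ q) (hqw : q ≤ w) :
    GB (Sf (Qd (Q f) q) w) q (rf f q) m ↔ Sf (Q f) w m := by
  unfold GB Sf
  rw [mem_rf_mod f q m hq]
  constructor
  · rintro ⟨h1, h2⟩ p hp hQ
    by_cases hpq : p ∣ q
    · exact h1 p (mem_pz.1 hp).2 hpq hQ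
    · exact h2 p hp ⟨hpq, hQ⟩
  · intro h
    refine ⟨fun p hp hpq => h p (mem_pz.2 ⟨(Nat.le_of_dvd hq hpq).trans hqw, hp⟩), ?_⟩
    intro p hp hQ
    exact h p hp hQ.2

lemma cnt_eq (f : Fin k → ℤ[X]) (w q l : ℕ) (hq : 1 ≤ q) (hqw : q ≤ w) (b s T : ℕ → ℕ) (Z Y : ℕ) :
    cG (Sf (Q f) w) q l b s T Z Y =
      cnt (Qd (Q f) q) w q l (rf f q) (b 0) (fun j => b (j + 1)) s T Z Y := by
  classical
  have hG : GB (Sf (Qd (Q f) q) w) q (rf f q) = Sf (Q f) w := by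
    funext m
    exact propext (gb_iff f w q m hq hqw)
  have hnx : nx (Sf (Q f) w) = nxt (Sf (Q f) w) := rfl
  unfold cG cnt
  rw [← Set.ncard_coe_finset]
  congr 1
  ext m
  simp only [Set.mem_ofPred_eq, coe_filter, mem_Ioc, Pat, hG, Ev, Pool.Agent.R463.PP.sq, hnx]
  constructor
  · rintro ⟨h1, h2, h3, h4, h5⟩
    refine ⟨⟨h1, h2⟩, h3, ?_, ?_⟩
    · have := h4 0 (Nat.zero_le _)
      simpa using this
    · intro j hj
      exact ⟨h4 (j + 1) hj, h5 j hj⟩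
  · rintro ⟨⟨h1, h2⟩, h3, h4, h5⟩
    refine ⟨h1, h2, h3, ?_, fun j hj => (h5 j hj).2⟩
    intro j hj
    rcases Nat.eq_zero_or_pos j with h | h
    · subst h
      simpa using h4
    · obtain ⟨i, rfl⟩ : ∃ i, j = i + 1 := ⟨j - 1, by omega⟩
      exact (h5 i (by omega)).1

lemma Vq_split (f : Fin k → ℤ[X]) (w q : ℕ) (hq : 1 ≤ q) (hqw : q ≤ w) :
    Vq (Q f) w = (∏ p ∈ q.primeFactors, (1 - (nuB (Q f) p : ℝ) / p)) * Vq (Qd (Q f) q) w := by
  classical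
  unfold Vq
  rw [← Finset.prod_filter_mul_prod_filter_not (pz w) (fun p => p ∣ q),
    ← Finset.prod_filter_mul_prod_filter_not (pz w) (fun p => p ∣ q)
      (fun p => 1 - (nuB (Qd (Q f) q) p : ℝ) / p)]
  have h1 : (pz w).filter (fun p => p ∣ q) = q.primeFactors := by
    ext p
    rw [mem_filter, mem_pz, Nat.mem_primeFactors]
    constructor
    · rintro ⟨⟨_, h2⟩, h3⟩
      exact ⟨h2, h3, by omega⟩
    · rintro ⟨h2, h3, _⟩
      exact ⟨⟨(Nat.le_of_dvd hq h3).trans hqw, h2⟩, h3⟩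
  have h2 : ∏ p ∈ (pz w).filter (fun p => p ∣ q), (1 - (nuB (Qd (Q f) q) p : ℝ) / p) = 1 := by
    apply prod_eq_one
    intro p hp
    have h3 : nuB (Qd (Q f) q) p = 0 := by
      unfold nuB
      rw [card_eq_zero, filter_eq_empty_iff]
      intro m _ hm
      exact hm.1 (mem_filter.1 hp).2
    rw [h3, Nat.cast_zero, zero_div, sub_zero]
  have h3 : ∏ p ∈ (pz w).filter (fun p => ¬ p ∣ q), (1 - (nuB (Qd (Q f) q) p : ℝ) / p) =
      ∏ p ∈ (pz w).filter (fun p => ¬ p ∣ q), (1 - (nuB (Q f) p : ℝ) / p) := by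
    apply prod_congr rfl
    intro p hp
    have h4 : nuB (Qd (Q f) q) p = nuB (Q f) p := by
      unfold nuB
      congr 1
      apply filter_congr
      intro m _
      unfold Qd
      exact ⟨fun h => h.2, fun h => ⟨(mem_filter.1 hp).2, h⟩⟩
    rw [h4]
  rw [h1, ← h1, h2, h3, one_mul]

lemma Vd_eq (f : Fin k → ℤ[X]) (w q : ℕ) : Vq (Qd (Q f) q) w =
    ∏ p ∈ (Icc 1 w).filter (fun p => p.Prime ∧ ¬ p ∣ q), (1 - (nuB (Q f) p : ℝ) / p) := by
  classical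
  unfold Vq
  symm
  have h1 : ∏ p ∈ (Icc 1 w).filter (fun p => p.Prime ∧ ¬ p ∣ q), (1 - (nuB (Q f) p : ℝ) / p) =
      ∏ p ∈ (Icc 1 w).filter (fun p => p.Prime ∧ ¬ p ∣ q), (1 - (nuB (Qd (Q f) q) p : ℝ) / p) := by
    apply prod_congr rfl
    intro p hp
    rw [mem_filter, mem_Icc] at hp
    have h2 : nuB (Qd (Q f) q) p = nuB (Q f) p := by
      unfold nuB
      congr 1
      apply filter_congr
      intro m _
      unfold Qd
      exact ⟨fun h => h.2, fun h => ⟨hp.2.2, h⟩⟩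
    rw [h2]
  rw [h1]
  apply prod_subset
  · intro p hp
    rw [mem_filter, mem_Icc] at hp
    exact mem_pz.2 ⟨hp.1.2, hp.2.1⟩
  · intro p hp hnot
    obtain ⟨h2, h3⟩ := mem_pz.1 hp
    have h4 : nuB (Qd (Q f) q) p = 0 := by
      unfold nuB
      rw [card_eq_zero, filter_eq_empty_iff]
      intro m _ hm
      exact hnot (mem_filter.2 ⟨mem_Icc.2 ⟨h3.one_lt.le, h2⟩, h3, hm.1⟩)
    rw [h4, Nat.cast_zero, zero_div, sub_zero]

/-- the local factors at the primes dividing `q` -/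
lemma c_low {D : ℕ} {H U : ℝ} {f : Fin k → ℤ[X]} (h : US k D H U f) (q : ℕ) (hq : 1 ≤ q) :
    1 / (q : ℝ) ≤ ∏ p ∈ q.primeFactors, (1 - (nuB (Q f) p : ℝ) / p) := by
  have h1 : ∏ p ∈ q.primeFactors, (1 / (p : ℝ)) ≤ ∏ p ∈ q.primeFactors, (1 - (nuB (Q f) p : ℝ) / p) := by
    apply Finset.prod_le_prod
    · intro p _
      positivity
    · intro p hp
      have hp' := (Nat.mem_primeFactors.1 hp).1
      have h2 : nuB (Q f) p + 1 ≤ p := us_adm h p hp'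
      have h3 : (0 : ℝ) < p := by exact_mod_cast hp'.pos
      have h4 : ((nuB (Q f) p : ℕ) : ℝ) + 1 ≤ p := by exact_mod_cast h2
      rw [div_le_iff₀ h3, sub_mul, div_mul_cancel₀ _ h3.ne']
      linarith
  refine le_trans ?_ h1
  rw [Finset.prod_div_distrib, Finset.prod_const_one]
  have h5 : ∏ p ∈ q.primeFactors, p ≤ q := Nat.le_of_dvd hq (Nat.prod_primeFactors_dvd q)
  have h6 : (0 : ℝ) < ∏ p ∈ q.primeFactors, (p : ℝ) := by
    apply prod_pos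
    intro p hp
    exact_mod_cast (Nat.mem_primeFactors.1 hp).1.pos
  apply one_div_le_one_div_of_le h6
  have h7 : ((∏ p ∈ q.primeFactors, p : ℕ) : ℝ) ≤ q := by exact_mod_cast h5
  rwa [Nat.cast_prod] at h7

lemma Vd_le {D : ℕ} {H U : ℝ} {f : Fin k → ℤ[X]} (h : US k D H U f) (w q : ℕ) (hq : 1 ≤ q) (hqw : q ≤ w) :
    Vq (Qd (Q f) q) w ≤ q * Vq (Q f) w := by
  have hq0 : (0 : ℝ) < q := by exact_mod_cast hq
  have h1 := Vq_split f w q hq hqw
  have h2 := c_low h q hq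
  have h3 : 0 ≤ Vq (Qd (Q f) q) w :=
    (Vq_pos _ (fun p hp => (nuB_Qd (Q f) q p).trans_lt (us_adm h p hp)) w).le
  rw [h1]
  calc Vq (Qd (Q f) q) w = q * (1 / q * Vq (Qd (Q f) q) w) := by field_simp
    _ ≤ q * ((∏ p ∈ q.primeFactors, (1 - (nuB (Q f) p : ℝ) / p)) * Vq (Qd (Q f) q) w) := by
      apply mul_le_mul_of_nonneg_left _ hq0.le
      exact mul_le_mul_of_nonneg_right h2 h3

/-- common parameters for finitely many choices -/
lemma par_finset {α : Type*} (S : Finset α) (g : α → Par) : ∃ P : Par,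
    ∀ (c q : ℕ) (Q : ℕ → ℕ → Prop) (Y y : ℕ), Ok P c q Q Y y → ∀ a ∈ S, Ok (g a) c q Q Y y := by
  classical
  induction S using Finset.induction_on with
  | empty =>
    refine ⟨⟨0, 1, 0, 0, 1, 1, 1, le_rfl, one_pos, one_pos, one_pos⟩, ?_⟩
    intro c q Q Y y _ a ha
    simp at ha
  | insert a S _ ih =>
    obtain ⟨P1, h1⟩ := ih
    obtain ⟨P, _, hP⟩ := Par.combine P1 (g a)
    refine ⟨P, ?_⟩
    intro c q Q Y y hok x hx
    obtain ⟨h2, h3⟩ := hP c q Q Y y hok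
    rw [mem_insert] at hx
    rcases hx with rfl | hx
    · exact h3
    · exact h1 c q Q Y y h2 x hx

open Classical in
/-- **The joint law, uniformly in the systems.** -/
theorem joint (k D q l : ℕ) (hq : 1 ≤ q) (E δ θ ε : ℝ) (hE : 0 < E) (hδ : 0 < δ) (hθ : 0 < θ) (hε : 0 < ε) :
    ∃ r0 : ℕ, ∀ r : ℕ, r0 ≤ r → ∀ Cv : ℝ, ∀ᶠ X : ℕ in atTop, ∀ f : Fin k → ℤ[X],
      US k D ((X : ℝ) ^ E) ((X : ℝ) ^ δ) f →
      Vq (Q f) ⌊(X : ℝ) ^ (1 / (r : ℝ))⌋₊ ≤ Cv / Real.log X →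
      ∀ Z Y : ℕ, (X : ℝ) ^ θ ≤ Y → ∀ b s T : ℕ → ℕ, (∀ j ≤ l, b j ∈ rf f q) → (∀ j < l, s j ≤ T j) →
        ∀ d R : ℝ, R = (rf f q).card → d = R / q * Vq (Qd (Q f) q) ⌊(X : ℝ) ^ (1 / (r : ℝ))⌋₊ →
        |(cG (Sf (Q f) ⌊(X : ℝ) ^ (1 / (r : ℝ))⌋₊) q l b s T Z Y : ℝ) - d * Y / R ^ (l + 1) *
            ∏ j ∈ range l, (Real.exp (-(d * s j)) - Real.exp (-(d * T j)))| ≤
          ε * (d * Y / R ^ (l + 1)) := by
  have hq0 : (0 : ℝ) < q := by exact_mod_cast hq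
  have hq1 : (1 : ℝ) ≤ q := by exact_mod_cast hq
  obtain ⟨ε', hε'⟩ : ∃ ε' : ℝ, ε' = ε / (q : ℝ) ^ l := ⟨_, rfl⟩
  have hε'0 : 0 < ε' := by rw [hε']; positivity
  have hex : ∀ B : Finset ℕ, ∃ P : Par, B ⊆ range q → 1 ≤ B.card →
      ∀ (Q : ℕ → ℕ → Prop) (Y y : ℕ), Ok P (k * D + 1) q Q Y y →
      ∀ Z c0 : ℕ, c0 ∈ B → ∀ b s T : ℕ → ℕ, (∀ j < l, b j ∈ B) → (∀ j < l, s j ≤ T j) →
        |(cnt Q y q l B c0 b s T Z Y : ℝ) - Y * Vq Q y / q * (gp (Vq Q y) q l B s T / B.card ^ l)| ≤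
          ε' * (Y * Vq Q y / q) := by
    intro B
    by_cases h : B ⊆ range q ∧ 1 ≤ B.card
    · obtain ⟨P, hP⟩ := runs (k * D + 1) q l (by omega) hq B h.1 h.2 ε' hε'0
      exact ⟨P, fun _ _ => hP⟩
    · refine ⟨⟨0, 1, 0, 0, 1, 1, 1, le_rfl, one_pos, one_pos, one_pos⟩, fun h1 h2 => absurd ⟨h1, h2⟩ h⟩
  choose g hg using hex
  obtain ⟨P, hP⟩ := par_finset (range q).powerset g
  obtain ⟨r0, h0⟩ := ok_polys k D P E δ θ hE hδ hθ
  refine ⟨max r0 2, ?_⟩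
  intro r hr Cv
  have hr2 : 2 ≤ r := (le_max_right _ _).trans hr
  have hrr : (2 : ℝ) ≤ r := by exact_mod_cast hr2
  have hpow : Tendsto (fun X : ℕ => (X : ℝ) ^ (1 / (r : ℝ))) atTop atTop :=
    (tendsto_rpow_atTop (by positivity)).comp tendsto_natCast_atTop_atTop
  have hlog : Tendsto (fun X : ℕ => Real.log (X : ℝ)) atTop atTop :=
    Real.tendsto_log_atTop.comp tendsto_natCast_atTop_atTop
  filter_upwards [h0 r ((le_max_left _ _).trans hr) (q * Cv), hpow.eventually_ge_atTop (q : ℝ),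
    hlog.eventually_ge_atTop 1] with X h1 h2 h3
  intro f hf hV Z Y hY b s T hb hsT d R hR hd
  obtain ⟨w, hw⟩ : ∃ w, w = ⌊(X : ℝ) ^ (1 / (r : ℝ))⌋₊ := ⟨_, rfl⟩
  rw [← hw] at hV hd ⊢
  have hqw : q ≤ w := by rw [hw]; exact Nat.le_floor h2
  have hR1 : 1 ≤ (rf f q).card := Finset.card_pos.2 ⟨b 0, hb 0 (Nat.zero_le _)⟩
  have hR1' : (1 : ℝ) ≤ R := by rw [hR]; exact_mod_cast hR1
  have hR0 : 0 < R := by linarith
  have hRq : R ≤ q := by
    rw [hR]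
    have := card_le_card (rf_sub f q)
    rw [card_range] at this
    exact_mod_cast this
  have hok : Ok P (k * D + 1) q (Qd (Q f) q) Y w := by
    have := h1 f hf q (by
      rw [← hw]
      refine (Vd_le hf w q hq hqw).trans ?_
      rw [mul_div_assoc]
      exact mul_le_mul_of_nonneg_left hV hq0.le) Y hY
    rwa [hw]
  have hok' := hP _ _ _ _ _ hok (rf f q) (mem_powerset.2 (rf_sub f q))
  have hmain := hg (rf f q) (rf_sub f q) hR1 (Qd (Q f) q) Y w hok' Z (b 0) (hb 0 (Nat.zero_le _))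
    (fun j => b (j + 1)) s T (fun j hj => hb (j + 1) hj) hsT
  rw [← cnt_eq f w q l hq hqw b s T Z Y] at hmain
  obtain ⟨V, hVdef⟩ : ∃ V, V = Vq (Qd (Q f) q) w := ⟨_, rfl⟩
  have hV0 : 0 ≤ V := by
    rw [hVdef]
    exact (Vq_pos _ hok.adm w).le
  rw [← hVdef] at hmain hd
  unfold gp at hmain
  rw [← hR] at hmain
  have hd' : d = R * V / q := by
    rw [hd]
    ring
  rw [hd']
  have e1 : R * V / q * Y / R ^ (l + 1) = Y * V / q / R ^ l := by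
    rw [pow_succ]
    field_simp
  rw [e1]
  have e2 : Y * V / q / R ^ l * ∏ j ∈ range l, (Real.exp (-(R * V / q * s j)) - Real.exp (-(R * V / q * T j))) =
      Y * V / q * ((∏ j ∈ range l, (Real.exp (-(R * V / q * s j)) - Real.exp (-(R * V / q * T j)))) / R ^ l) := by
    ring
  rw [e2]
  refine hmain.trans ?_
  rw [hε']
  have h5 : ε / (q : ℝ) ^ l ≤ ε / R ^ l := by
    apply div_le_div_of_nonneg_left hε.le (by positivity)
    exact pow_le_pow_left₀ hR0.le hRq l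
  calc ε / (q : ℝ) ^ l * (Y * V / q) ≤ ε / R ^ l * (Y * V / q) :=
        mul_le_mul_of_nonneg_right h5 (by positivity)
    _ = ε * (Y * V / q / R ^ l) := by ring

end Pool.Agent.U404.JL
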